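import Pool.Agent.TH625.GM.Props

set_option autoImplicit false

open Complex MeasureTheory
open UpperHalfPlane hiding I
open scoped Real MatrixGroups ModularForm

open Pool.Agent.TH625.GM

namespace Pool.Agent.TH67.J691

noncomputable section

/-- multiplication in `ℤ[φ]` -/
def ml (b c : ℤ × ℤ) : ℤ × ℤ := (b.1 * c.1 + b.2 * c.2, b.1 * c.2 + b.2 * c.1 + b.2 * c.2)

lemma e1_ml (b c : ℤ × ℤ) : e1 (ml b c) = e1 b * e1 c := by
  unfold e1 ml
  push_cast
  linear_combination (-((b.2 : ℝ) * c.2)) * Real.goldenRatio_sq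

lemma e2_ml (b c : ℤ × ℤ) : e2 (ml b c) = e2 b * e2 c := by
  unfold e2 ml
  push_cast
  linear_combination (-((b.2 : ℝ) * c.2)) * Real.goldenConj_sq

lemma nm_ml (b c : ℤ × ℤ) : nm (ml b c) = nm b * nm c := by
  unfold nm ml; ring

lemma rs_ml (b c : ℤ × ℤ) : rs (ml b c) = rs b * rs c := by
  unfold rs ml
  push_cast
  have h5 : (5 : ZMod 5) = 0 := by decide
  linear_combination (-((b.2 : ZMod 5) * c.2)) * h5

lemma chi5_mul : ∀ x y : ZMod 5, chi5 (x * y) = chi5 x * chi5 y := by decide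

lemma h5_ml (b c : ℤ × ℤ) : h5 (ml b c) = h5 b * h5 c := by
  unfold h5; rw [rs_ml, chi5_mul]

lemma ml_comm (b c : ℤ × ℤ) : ml b c = ml c b := by
  unfold ml; ext <;> simp <;> ring

lemma ml_assoc (b c d : ℤ × ℤ) : ml (ml b c) d = ml b (ml c d) := by
  unfold ml; ext <;> simp <;> ring

lemma e1_ne {b : ℤ × ℤ} (hb : b ≠ 0) : e1 b ≠ 0 := by
  intro h
  unfold e1 at h
  by_cases h2 : b.2 = 0
  · rw [h2] at h
    simp at h
    apply hb
    ext
    · simpa using h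
    · simpa using h2
  · apply Real.goldenRatio_irrational
    refine ⟨-(b.1 : ℚ) / b.2, ?_⟩
    have h3 : (b.2 : ℝ) ≠ 0 := by exact_mod_cast h2
    push_cast
    rw [div_eq_iff h3]
    linarith

lemma e2_ne {b : ℤ × ℤ} (hb : b ≠ 0) : e2 b ≠ 0 := by
  intro h
  unfold e2 at h
  by_cases h2 : b.2 = 0
  · rw [h2] at h
    simp at h
    apply hb
    ext
    · simpa using h
    · simpa using h2
  · apply Real.goldenConj_irrational
    refine ⟨-(b.1 : ℚ) / b.2, ?_⟩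
    have h3 : (b.2 : ℝ) ≠ 0 := by exact_mod_cast h2
    push_cast
    rw [div_eq_iff h3]
    linarith

lemma nm_eq (b : ℤ × ℤ) : (nm b : ℝ) = e1 b * e2 b := by
  unfold nm e1 e2
  push_cast
  have h1 := Real.goldenRatio_add_goldenConj
  have h2 := Real.goldenRatio_mul_goldenConj
  linear_combination (-((b.1 : ℝ) * b.2)) * h1 - ((b.2 : ℝ) ^ 2) * h2

lemma nm_ne {b : ℤ × ℤ} (hb : b ≠ 0) : nm b ≠ 0 := by
  intro h
  have h1 := nm_eq b
  rw [h] at h1
  have h3 : e1 b * e2 b = 0 := by rw [← h1]; simp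
  rcases mul_eq_zero.1 h3 with h2 | h2
  · exact e1_ne hb h2
  · exact e2_ne hb h2

lemma ne_of_nm {b : ℤ × ℤ} (h : nm b ≠ 0) : b ≠ 0 := by
  rintro rfl
  apply h
  simp [nm]

lemma ml_ne {b c : ℤ × ℤ} (hb : b ≠ 0) (hc : c ≠ 0) : ml b c ≠ 0 := by
  apply ne_of_nm
  rw [nm_ml]
  exact mul_ne_zero (nm_ne hb) (nm_ne hc)

lemma e1_inj {b c : ℤ × ℤ} (h : e1 b = e1 c) : b = c := by
  by_contra hne
  have h1 : b - c ≠ 0 := sub_ne_zero.2 hne
  apply e1_ne h1
  unfold e1 at *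
  simp only [Prod.fst_sub, Prod.snd_sub]
  push_cast
  linarith

lemma ml_cancel {d b c : ℤ × ℤ} (hd : d ≠ 0) (h : ml d b = ml d c) : b = c := by
  apply e1_inj
  have h1 := congrArg e1 h
  rw [e1_ml, e1_ml] at h1
  exact mul_left_cancel₀ (e1_ne hd) h1

/-- multiplication by `φ` as a permutation -/
def P : Equiv.Perm (ℤ × ℤ) where
  toFun := mulPhi
  invFun := fun b => (b.2 - b.1, b.1)
  left_inv := by intro b; simp [mulPhi]
  right_inv := by intro b; simp [mulPhi]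

lemma P_apply (b : ℤ × ℤ) : P b = mulPhi b := rfl

lemma P_eq_ml (b : ℤ × ℤ) : P b = ml (0, 1) b := by
  rw [P_apply]; unfold mulPhi ml; ext <;> simp

lemma e1_P (b : ℤ × ℤ) : e1 (P b) = Real.goldenRatio * e1 b := by
  rw [P_eq_ml, e1_ml]; simp [e1]

lemma e2_P (b : ℤ × ℤ) : e2 (P b) = Real.goldenConj * e2 b := by
  rw [P_eq_ml, e2_ml]; simp [e2]

lemma P_ne {b : ℤ × ℤ} (hb : b ≠ 0) : P b ≠ 0 := by
  rw [P_eq_ml]; exact ml_ne (by decide) hb

lemma P_ne_iff {b : ℤ × ℤ} : P b ≠ 0 ↔ b ≠ 0 := by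
  refine ⟨fun h hb => h ?_, P_ne⟩
  subst hb
  rw [P_apply]; simp [mulPhi]

/-- general invariance under powers -/
lemma inv_zpow {α : Type*} (g : ℤ × ℤ → α) (hg : ∀ b, b ≠ 0 → g (P b) = g b) (k : ℤ) :
    ∀ b : ℤ × ℤ, b ≠ 0 → (P ^ k) b ≠ 0 ∧ g ((P ^ k) b) = g b := by
  induction k using Int.induction_on with
  | zero => intro b hb; simpa using hb
  | succ i ih =>
    intro b hb
    rw [zpow_add_one, Equiv.Perm.mul_apply]
    obtain ⟨h1, h2⟩ := ih (P b) (P_ne hb)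
    exact ⟨h1, h2.trans (hg b hb)⟩
  | pred i ih =>
    intro b hb
    rw [zpow_sub_one, Equiv.Perm.mul_apply]
    have h0 : P (P⁻¹ b) = b := by simp
    have h00 : P⁻¹ b ≠ 0 := by
      rw [← P_ne_iff, h0]; exact hb
    obtain ⟨h1, h2⟩ := ih (P⁻¹ b) h00
    refine ⟨h1, h2.trans ?_⟩
    conv_rhs => rw [← h0]
    exact (hg _ h00).symm

lemma ml_P (d b : ℤ × ℤ) : ml d (P b) = P (ml d b) := by
  rw [P_eq_ml, P_eq_ml, ← ml_assoc, ml_comm d (0, 1), ml_assoc]

lemma ml_zpow (d : ℤ × ℤ) (k : ℤ) : ∀ b : ℤ × ℤ, ml d ((P ^ k) b) = (P ^ k) (ml d b) := by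
  induction k using Int.induction_on with
  | zero => intro b; simp
  | succ i ih =>
    intro b
    rw [zpow_add_one, Equiv.Perm.mul_apply, Equiv.Perm.mul_apply, ih, ml_P]
  | pred i ih =>
    intro b
    rw [zpow_sub_one, Equiv.Perm.mul_apply, Equiv.Perm.mul_apply, ih]
    congr 1
    rw [Equiv.Perm.eq_inv_iff_eq, ← ml_P]
    simp

/-- the ratio of the absolute values of the embeddings -/
def R (b : ℤ × ℤ) : ℝ := |e1 b| / |e2 b|

lemma R_pos {b : ℤ × ℤ} (hb : b ≠ 0) : 0 < R b :=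
  div_pos (abs_pos.2 (e1_ne hb)) (abs_pos.2 (e2_ne hb))

lemma abs_conj : |Real.goldenConj| = Real.goldenRatio⁻¹ := by
  rw [abs_of_neg Real.goldenConj_neg, ← Real.inv_goldenRatio]

lemma R_P (b : ℤ × ℤ) : R (P b) = Real.goldenRatio ^ 2 * R b := by
  unfold R
  rw [e1_P, e2_P, abs_mul, abs_mul, abs_conj, abs_of_pos Real.goldenRatio_pos]
  have := Real.goldenRatio_ne_zero
  field_simp

lemma R_zpow (k : ℤ) : ∀ b : ℤ × ℤ, R ((P ^ k) b) = (Real.goldenRatio ^ 2) ^ k * R b := by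
  have hne : (Real.goldenRatio ^ 2 : ℝ) ≠ 0 := pow_ne_zero _ Real.goldenRatio_ne_zero
  induction k using Int.induction_on with
  | zero => intro b; simp
  | succ i ih =>
    intro b
    rw [zpow_add_one, Equiv.Perm.mul_apply, ih, R_P, zpow_add_one₀ hne]
    ring
  | pred i ih =>
    intro b
    rw [zpow_sub_one, Equiv.Perm.mul_apply, ih]
    have h0 : P (P⁻¹ b) = b := by simp
    have h1 : R b = Real.goldenRatio ^ 2 * R (P⁻¹ b) := by
      conv_lhs => rw [← h0]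
      exact R_P _
    rw [h1, zpow_sub_one₀ hne]
    field_simp

lemma mem_Dm {b : ℤ × ℤ} (hb : b ≠ 0) :
    b ∈ Dm ↔ 1 ≤ R b ∧ R b < Real.goldenRatio ^ 2 := by
  have h2 : 0 < |e2 b| := abs_pos.2 (e2_ne hb)
  unfold Dm R
  simp only [Set.mem_ofPred_eq]
  rw [one_le_div h2, div_lt_iff₀ h2]
  exact ⟨fun h => h.2, fun h => ⟨hb, h⟩⟩

lemma one_lt_sq : (1 : ℝ) < Real.goldenRatio ^ 2 := by
  have := Real.one_lt_goldenRatio
  nlinarith

lemma uniq {b : ℤ × ℤ} {k : ℤ} (hb : b ≠ 0) (h1 : b ∈ Dm) (h2 : (P ^ k) b ∈ Dm) : k = 0 := by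
  have hk : (P ^ k) b ≠ 0 := (inv_zpow (fun _ => (0 : ℕ)) (fun _ _ => rfl) k b hb).1
  rw [mem_Dm hb] at h1
  rw [mem_Dm hk, R_zpow] at h2
  have hpos := R_pos hb
  by_contra hne
  rcases lt_or_gt_of_ne hne with h | h
  · -- k ≤ -1
    have h3 : (Real.goldenRatio ^ 2) ^ k ≤ (Real.goldenRatio ^ 2) ^ (-1 : ℤ) :=
      zpow_le_zpow_right₀ one_lt_sq.le (by omega)
    rw [zpow_neg_one] at h3
    have h4 : (Real.goldenRatio ^ 2) ^ k * R b ≤ (Real.goldenRatio ^ 2)⁻¹ * R b :=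
      mul_le_mul_of_nonneg_right h3 hpos.le
    have h5 : (Real.goldenRatio ^ 2)⁻¹ * R b < 1 := by
      rw [inv_mul_lt_iff₀ (by positivity)]; linarith [h1.2]
    linarith [h2.1]
  · have h3 : (Real.goldenRatio ^ 2) ^ (1 : ℤ) ≤ (Real.goldenRatio ^ 2) ^ k :=
      zpow_le_zpow_right₀ one_lt_sq.le (by omega)
    rw [zpow_one] at h3
    have h4 : Real.goldenRatio ^ 2 * 1 ≤ (Real.goldenRatio ^ 2) ^ k * R b :=
      mul_le_mul h3 h1.1 (by norm_num) (by positivity)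
    linarith [h2.2]

lemma ex_k {b : ℤ × ℤ} (hb : b ≠ 0) : ∃ k : ℤ, (P ^ k) b ∈ Dm := by
  obtain ⟨j, hj1, hj2⟩ := exists_mem_Ico_zpow (R_pos hb) one_lt_sq
  have hne : (Real.goldenRatio ^ 2 : ℝ) ≠ 0 := pow_ne_zero _ Real.goldenRatio_ne_zero
  have hpos : 0 < (Real.goldenRatio ^ 2 : ℝ) ^ j := by
    have := Real.goldenRatio_pos
    positivity
  refine ⟨-j, ?_⟩
  have hk : (P ^ (-j)) b ≠ 0 := (inv_zpow (fun _ => (0 : ℕ)) (fun _ _ => rfl) (-j) b hb).1
  rw [mem_Dm hk, R_zpow, zpow_neg, ← div_eq_inv_mul]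
  refine ⟨by rwa [one_le_div hpos], ?_⟩
  rw [div_lt_iff₀ hpos, ← zpow_one_add₀ hne]
  rw [add_comm]
  exact hj2

/-- normalisation into the fundamental domain -/
def nrm (b : ℤ × ℤ) : ℤ × ℤ :=
  open Classical in if hb : b ≠ 0 then (P ^ (ex_k hb).choose) b else b

lemma nrm_spec {b : ℤ × ℤ} (hb : b ≠ 0) : ∃ k : ℤ, nrm b = (P ^ k) b ∧ nrm b ∈ Dm := by
  refine ⟨(ex_k hb).choose, ?_, ?_⟩
  · unfold nrm; rw [dif_pos hb]
  · unfold nrm; rw [dif_pos hb]; exact (ex_k hb).choose_spec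

/-- the multiplicative function -/
def psi (b : ℤ × ℤ) : ℂ := (h5 b : ℂ) * rho b

lemma rho_eq (b : ℤ × ℤ) : rho b = cexp ((tt * Real.log (R b) : ℝ) * I) := rfl

lemma psi_ml {b c : ℤ × ℤ} (hb : b ≠ 0) (hc : c ≠ 0) : psi (ml b c) = psi b * psi c := by
  unfold psi
  have hR : R (ml b c) = R b * R c := by
    unfold R
    rw [e1_ml, e2_ml, abs_mul, abs_mul, mul_div_mul_comm]
  rw [h5_ml, rho_eq, rho_eq, rho_eq, hR, Real.log_mul (R_pos hb).ne' (R_pos hc).ne', mul_add]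
  push_cast
  rw [add_mul, Complex.exp_add]
  ring

lemma tt_Lg : tt * (2 * Lg) = π := by
  have : Lg ≠ 0 := by
    unfold Lg
    exact (Real.log_pos Real.one_lt_goldenRatio).ne'
  unfold tt
  field_simp

lemma psi_P {b : ℤ × ℤ} (hb : b ≠ 0) : psi (P b) = psi b := by
  unfold psi
  have h1 : h5 (P b) = - h5 b := by
    rw [P_eq_ml, h5_ml]
    have : h5 (0, 1) = -1 := by decide
    rw [this]; ring
  rw [h1, rho_eq, rho_eq, R_P, Real.log_mul (by have := Real.goldenRatio_ne_zero; positivity)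
    (R_pos hb).ne', Real.log_pow]
  have h2 : tt * ((2 : ℕ) * Real.log Real.goldenRatio + Real.log (R b)) =
      π + tt * Real.log (R b) := by
    rw [mul_add]
    congr 1
    have := tt_Lg
    unfold Lg at this
    exact_mod_cast this
  rw [h2]
  push_cast
  rw [add_mul, Complex.exp_add, Complex.exp_pi_mul_I]
  ring

lemma psi_nrm {b : ℤ × ℤ} (hb : b ≠ 0) : psi (nrm b) = psi b := by
  obtain ⟨k, hk, -⟩ := nrm_spec hb
  rw [hk]
  exact (inv_zpow psi (fun b hb => psi_P hb) k b hb).2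

lemma absnm_zpow (k : ℤ) {b : ℤ × ℤ} (hb : b ≠ 0) :
    (P ^ k) b ≠ 0 ∧ (nm ((P ^ k) b)).natAbs = (nm b).natAbs := by
  refine inv_zpow (fun b => (nm b).natAbs) (fun b _ => ?_) k b hb
  rw [P_eq_ml, nm_ml, Int.natAbs_mul]
  have : (nm (0, 1)).natAbs = 1 := by decide
  rw [this, one_mul]

lemma nrm_ne {b : ℤ × ℤ} (hb : b ≠ 0) : nrm b ≠ 0 := by
  obtain ⟨k, hk, -⟩ := nrm_spec hb
  rw [hk]; exact (absnm_zpow k hb).1

lemma nrm_abs {b : ℤ × ℤ} (hb : b ≠ 0) : (nm (nrm b)).natAbs = (nm b).natAbs := by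
  obtain ⟨k, hk, -⟩ := nrm_spec hb
  rw [hk]; exact (absnm_zpow k hb).2

lemma nrm_mem {b : ℤ × ℤ} (hb : b ≠ 0) : nrm b ∈ Dm := (nrm_spec hb).choose_spec.2

/-- if `nrm x = nrm y` up to a power, uniqueness -/
lemma eq_of_zpow {b c : ℤ × ℤ} {k : ℤ} (hb : b ≠ 0) (h1 : b ∈ Dm) (h2 : c ∈ Dm)
    (h : c = (P ^ k) b) : c = b := by
  have := uniq hb h1 (h ▸ h2)
  rw [h, this]; simp

lemma nrm_eq_of_zpow {b c : ℤ × ℤ} {k : ℤ} (hb : b ≠ 0) (h2 : c ∈ Dm)
    (h : c = (P ^ k) b) : c = nrm b := by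
  obtain ⟨l, hl, hm⟩ := nrm_spec hb
  have h3 : c = (P ^ (k - l)) (nrm b) := by
    rw [hl, h, ← Equiv.Perm.mul_apply, ← zpow_add]
    congr 2; ring
  exact eq_of_zpow (nrm_ne hb) hm h2 h3

/-- divisibility -/
def Dv (d c : ℤ × ℤ) : Prop := ∃ b, c = ml d b

section sums

variable (h : Arith1)

/-- the finite set `Dn n` -/
def DF (n : ℕ) : Finset (ℤ × ℤ) := (h.fin n).toFinset

lemma mem_DF {n : ℕ} {b : ℤ × ℤ} : b ∈ DF h n ↔ b ∈ Dm ∧ (nm b).natAbs = n := by
  unfold DF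
  rw [Set.Finite.mem_toFinset]
  rfl

lemma a_eq (n : ℕ) : a n = (1 / 2) * ∑ b ∈ DF h n, psi b := by
  unfold a
  congr 1
  rw [finsum_mem_eq_finite_toFinset_sum _ (h.fin n)]
  rfl

lemma ne_of_mem {b : ℤ × ℤ} (hb : b ∈ Dm) : b ≠ 0 := hb.1

open Classical in
lemma key (d : ℤ × ℤ) (hd : d ≠ 0) (n : ℕ) :
    ∑ c ∈ (DF h ((nm d).natAbs * n)).filter (fun c => Dv d c), psi c =
      psi d * ∑ b ∈ DF h n, psi b := by
  rw [Finset.mul_sum]
  symm
  refine Finset.sum_bij (fun b _ => nrm (ml d b)) ?_ ?_ ?_ ?_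
  · intro b hb
    rw [mem_DF] at hb
    have hb0 := ne_of_mem hb.1
    have h0 := ml_ne hd hb0
    rw [Finset.mem_filter, mem_DF]
    refine ⟨⟨nrm_mem h0, ?_⟩, ?_⟩
    · rw [nrm_abs h0, nm_ml, Int.natAbs_mul, hb.2]
    · obtain ⟨k, hk, -⟩ := nrm_spec h0
      exact ⟨(P ^ k) b, by rw [hk, ml_zpow]⟩
  · intro b hb c hc hbc
    rw [mem_DF] at hb hc
    have hb0 := ne_of_mem hb.1
    have hc0 := ne_of_mem hc.1
    obtain ⟨k, hk, -⟩ := nrm_spec (ml_ne hd hb0)
    obtain ⟨l, hl, -⟩ := nrm_spec (ml_ne hd hc0)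
    rw [hk, hl, ← ml_zpow, ← ml_zpow] at hbc
    have h1 := ml_cancel hd hbc
    refine eq_of_zpow (k := l - k) hc0 hc.1 hb.1 ?_ |>.trans rfl
    have h2 : b = (P ^ (-k)) ((P ^ k) b) := by
      rw [← Equiv.Perm.mul_apply, ← zpow_add]; simp
    rw [h2, h1, ← Equiv.Perm.mul_apply, ← zpow_add]
    congr 2; ring
  · intro c hc
    rw [Finset.mem_filter, mem_DF] at hc
    obtain ⟨⟨hcD, hcn⟩, b, hb⟩ := hc
    have hc0 := ne_of_mem hcD
    have hb0 : b ≠ 0 := by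
      rintro rfl
      apply hc0
      rw [hb]; simp [ml]
    obtain ⟨k, hk, hkD⟩ := nrm_spec hb0
    have hn : (nm (nrm b)).natAbs = n := by
      rw [nrm_abs hb0]
      rw [hb, nm_ml, Int.natAbs_mul] at hcn
      exact Nat.eq_of_mul_eq_mul_left (Int.natAbs_pos.2 (nm_ne hd)) hcn
    refine ⟨nrm b, ?_, ?_⟩
    · rw [mem_DF]; exact ⟨hkD, hn⟩
    · symm
      have h1 : ml d (nrm b) = (P ^ k) c := by rw [hk, ml_zpow, ← hb]
      refine nrm_eq_of_zpow (k := -k) (ml_ne hd (nrm_ne hb0)) hcD ?_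
      rw [h1, ← Equiv.Perm.mul_apply, ← zpow_add]; simp
  · intro b hb
    rw [mem_DF] at hb
    have hb0 := ne_of_mem hb.1
    rw [psi_nrm (ml_ne hd hb0), psi_ml hd hb0]

/-! ### arithmetic -/

/-- evaluation `φ ↦ r` modulo `p` -/
def ev (p : ℕ) (r : ZMod p) (b : ℤ × ℤ) : ZMod p := (b.1 : ZMod p) + (b.2 : ZMod p) * r

lemma ev_ml {p : ℕ} {r : ZMod p} (hr : r ^ 2 = r + 1) (b c : ℤ × ℤ) :
    ev p r (ml b c) = ev p r b * ev p r c := by
  unfold ev ml
  push_cast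
  linear_combination (-((b.2 : ZMod p) * c.2)) * hr

lemma nm_ev {p : ℕ} {r : ZMod p} (hr : r ^ 2 = r + 1) (b : ℤ × ℤ) :
    ((nm b : ℤ) : ZMod p) = ev p r b * ev p (1 - r) b := by
  unfold nm ev
  push_cast
  linear_combination ((b.2 : ZMod p) ^ 2) * hr

lemma cast_nm_zero {p : ℕ} {b : ℤ × ℤ} : ((nm b : ℤ) : ZMod p) = 0 ↔ p ∣ (nm b).natAbs := by
  rw [ZMod.intCast_zmod_eq_zero_iff_dvd, Int.natCast_dvd]

lemma Dv_p {p : ℕ} (hp : p ≠ 0) {b : ℤ × ℤ} :
    Dv ((p : ℤ), 0) b ↔ ((b.1 : ZMod p) = 0 ∧ (b.2 : ZMod p) = 0) := by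
  rw [ZMod.intCast_zmod_eq_zero_iff_dvd, ZMod.intCast_zmod_eq_zero_iff_dvd]
  constructor
  · rintro ⟨c, rfl⟩
    simp [ml]
  · rintro ⟨⟨x, hx⟩, ⟨y, hy⟩⟩
    refine ⟨(x, y), ?_⟩
    ext
    · simp [ml, hx]
    · simp [ml, hy]

/-- conjugate -/
def cj (b : ℤ × ℤ) : ℤ × ℤ := (b.1 + b.2, -b.2)

lemma cj_cj (b : ℤ × ℤ) : cj (cj b) = b := by
  unfold cj; ext <;> simp

lemma nm_cj (b : ℤ × ℤ) : nm (cj b) = nm b := by
  unfold nm cj; ring

lemma ml_cj (b : ℤ × ℤ) : ml (cj b) b = (nm b, 0) := by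
  unfold ml cj nm; ext <;> simp <;> ring

lemma ev_cj {p : ℕ} {r : ZMod p} (b : ℤ × ℤ) : ev p (1 - r) (cj b) = ev p r b := by
  unfold ev cj; push_cast; ring

lemma both {p : ℕ} [Fact p.Prime] {r : ZMod p} (hr2 : r ≠ 1 - r) {b : ℤ × ℤ}
    (h1 : ev p r b = 0) (h2 : ev p (1 - r) b = 0) : Dv ((p : ℤ), 0) b := by
  rw [Dv_p (Fact.out : p.Prime).ne_zero]
  unfold ev at h1 h2
  have h3 : (b.2 : ZMod p) * (r - (1 - r)) = 0 := by linear_combination h1 - h2
  rcases mul_eq_zero.1 h3 with h4 | h4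
  · rw [h4] at h1
    refine ⟨by simpa using h1, h4⟩
  · exact absurd (sub_eq_zero.1 h4) hr2

lemma Dv_iff {p : ℕ} [Fact p.Prime] {r : ZMod p} (hr : r ^ 2 = r + 1) (hr2 : r ≠ 1 - r)
    {d : ℤ × ℤ} (hd : (nm d).natAbs = p) (hd2 : ev p r d = 0) (c : ℤ × ℤ) :
    Dv d c ↔ ev p r c = 0 := by
  have hp : p.Prime := Fact.out
  constructor
  · rintro ⟨b, rfl⟩
    rw [ev_ml hr, hd2, zero_mul]
  · intro hc
    have hr' : (1 - r) ^ 2 = (1 - r) + 1 := by linear_combination hr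
    have hx : Dv ((p : ℤ), 0) (ml c (cj d)) := by
      refine both hr2 ?_ ?_
      · rw [ev_ml hr, hc, zero_mul]
      · rw [ev_ml hr', ev_cj, hd2, mul_zero]
    obtain ⟨y, hy⟩ := hx
    have h1 : ml c (nm d, 0) = ml ((p : ℤ), 0) (ml y d) := by
      rw [← ml_assoc, ← hy, ml_assoc, ml_cj]
    have hp0 : ((p : ℤ), (0 : ℤ)) ≠ 0 := by
      intro h0
      have := congrArg Prod.fst h0
      simp at this
      exact hp.ne_zero this
    rcases Int.natAbs_eq_iff.1 hd with h2 | h2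
    · rw [h2, ml_comm] at h1
      refine ⟨y, ?_⟩
      rw [ml_comm d y]
      exact ml_cancel hp0 h1
    · refine ⟨-y, ?_⟩
      have h3 : ml ((p : ℤ), 0) c = ml ((p : ℤ), 0) (ml d (-y)) := by
        have h4 : ml c (nm d, 0) = -ml ((p : ℤ), 0) c := by
          rw [h2]; unfold ml; ext <;> simp <;> ring
        have h5 : ml ((p : ℤ), 0) (ml d (-y)) = - ml ((p : ℤ), 0) (ml y d) := by
          unfold ml; ext <;> simp <;> ring
        rw [h5, ← h1, h4, neg_neg]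
      exact ml_cancel hp0 h3

lemma split_exists {p : ℕ} [Fact p.Prime] {r : ZMod p} (hr : r ^ 2 = r + 1) :
    ∃ d : ℤ × ℤ, (nm d).natAbs = p ∧ ev p r d = 0 := by
  have hp : p.Prime := Fact.out
  set n := Nat.sqrt p with hn
  have hn1 : n * n ≤ p := Nat.sqrt_le p
  have hn2 : p < (n + 1) * (n + 1) := Nat.lt_succ_sqrt p
  have hnpos : 0 < n := Nat.sqrt_pos.2 hp.pos
  have hn3 : n * n < p := by
    refine lt_of_le_of_ne hn1 ?_
    intro h0
    have : n ∣ p := ⟨n, h0.symm⟩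
    rcases (Nat.dvd_prime hp).1 this with h1 | h1
    · rw [h1] at h0
      have := hp.one_lt
      omega
    · rw [h1] at h0
      have := hp.one_lt
      nlinarith
  obtain ⟨j, k, hk0, hkn, hjk⟩ := Real.exists_int_int_abs_mul_sub_le ((r.val : ℝ) / p) hnpos
  have hppos : (0 : ℝ) < p := by exact_mod_cast hp.pos
  set u : ℤ := j * p - k * r.val with hu
  have hevz : ev p r (u, k) = 0 := by
    unfold ev
    rw [hu]
    push_cast
    rw [ZMod.natCast_self, ZMod.natCast_zmod_val]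
    ring
  have hu1 : |(u : ℝ)| * (n + 1) ≤ p := by
    have h1 : (u : ℝ) = -(((k : ℝ) * ((r.val : ℝ) / p) - j) * p) := by
      rw [hu]; push_cast; field_simp; ring
    rw [h1, abs_neg, abs_mul, abs_of_pos hppos]
    have h2 : |(k : ℝ) * ((r.val : ℝ) / p) - j| * (n + 1) ≤ 1 := by
      rwa [le_div_iff₀ (by positivity)] at hjk
    calc _ = (|(k : ℝ) * ((r.val : ℝ) / p) - j| * (n + 1)) * p := by ring
      _ ≤ 1 * p := mul_le_mul_of_nonneg_right h2 hppos.le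
      _ = p := one_mul _
  have hu2 : u ^ 2 < p := by
    have h1 : (|(u : ℝ)| * (n + 1)) ^ 2 ≤ (p : ℝ) ^ 2 := by
      apply pow_le_pow_left₀ (by positivity) hu1
    have h2 : (p : ℝ) < (n + 1) * (n + 1) := by exact_mod_cast hn2
    rw [mul_pow, sq_abs] at h1
    have h3 : (u : ℝ) ^ 2 < p := by
      by_contra hcon
      push Not at hcon
      have h4 : (p : ℝ) * ((n + 1) ^ 2) ≤ (u : ℝ) ^ 2 * (n + 1) ^ 2 :=
        mul_le_mul_of_nonneg_right hcon (by positivity)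
      nlinarith
    exact_mod_cast h3
  have hk2 : k ^ 2 < p := by
    have h1 : k * k ≤ (n : ℤ) * n := mul_le_mul hkn hkn hk0.le (by positivity)
    have h2 : (n : ℤ) * n < p := by exact_mod_cast hn3
    nlinarith
  refine ⟨(u, k), ?_, hevz⟩
  have hne : ((u, k) : ℤ × ℤ) ≠ 0 := by
    intro h0
    have := congrArg Prod.snd h0
    simp at this
    omega
  have hnm := nm_ne hne
  have hdvd : p ∣ (nm (u, k)).natAbs := by
    rw [← cast_nm_zero, nm_ev hr, hevz, zero_mul]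
  have hlt : (nm (u, k)).natAbs < 2 * p := by
    have h1 : nm (u, k) = u ^ 2 + u * k - k ^ 2 := rfl
    have h2 : |nm (u, k)| < 2 * p := by
      rw [h1, abs_lt]
      constructor
      · nlinarith [sq_nonneg (2 * u + k)]
      · nlinarith [sq_nonneg (u - 2 * k)]
    rw [Int.abs_eq_natAbs] at h2
    exact_mod_cast h2
  obtain ⟨m, hm⟩ := hdvd
  have hm0 : m ≠ 0 := by
    rintro rfl
    apply hnm
    rw [mul_zero] at hm
    exact Int.natAbs_eq_zero.1 hm
  have hm1 : m < 2 := by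
    rw [hm] at hlt
    by_contra hcon
    push Not at hcon
    have := Nat.mul_le_mul_left p hcon
    omega
  have : m = 1 := by omega
  rw [hm, this, mul_one]

lemma chi_sq : ∀ y : ZMod 5, y * y ≠ 0 → chi5 (y * y) = 1 := by decide

lemma chi_two : chi5 ((2 : ℕ) : ZMod 5) = -1 := by decide

lemma hall2 : ∀ x y : ZMod 2, x ^ 2 + x * y - y ^ 2 = 0 → x = 0 ∧ y = 0 := by decide

lemma chi_nsq : ∀ x : ZMod 5, x ≠ 0 → (∀ y, x ≠ y * y) → chi5 x = -1 := by decide

lemma psi_p {p : ℕ} (hp : p ≠ 0) : psi ((p : ℤ), 0) = (chi5 (p : ZMod 5) : ℂ) := by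
  unfold psi
  rw [rho_eq]
  have h1 : R ((p : ℤ), 0) = 1 := by
    unfold R e1 e2
    have : (p : ℝ) ≠ 0 := by exact_mod_cast hp
    simp [this]
  rw [h1]
  simp [h5, rs]

open Classical in
lemma Tsum {p : ℕ} (hp : p.Prime) {n : ℕ} (hn : 0 < n) :
    ∑ c ∈ (DF h (p * n)).filter (fun c => Dv ((p : ℤ), 0) c), psi c =
      if p ∣ n then (chi5 (p : ZMod 5) : ℂ) * ∑ b ∈ DF h (n / p), psi b else 0 := by
  have hp0 : ((p : ℤ), (0 : ℤ)) ≠ 0 := by
    intro h0
    have := congrArg Prod.fst h0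
    simp at this
    exact hp.ne_zero this
  have hnm : (nm ((p : ℤ), 0)).natAbs = p * p := by
    have : nm ((p : ℤ), 0) = ((p * p : ℕ) : ℤ) := by
      unfold nm; push_cast; ring
    rw [this, Int.natAbs_natCast]
  split_ifs with hpn
  · obtain ⟨m, rfl⟩ := hpn
    have h1 := key h ((p : ℤ), 0) hp0 m
    rw [hnm, mul_assoc, psi_p hp.ne_zero] at h1
    rw [Nat.mul_div_cancel_left _ hp.pos]
    exact h1
  · rw [Finset.filter_false_of_mem, Finset.sum_empty]
    rintro c hc ⟨b, hb⟩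
    rw [mem_DF] at hc
    apply hpn
    have h2 := hc.2
    rw [hb, nm_ml, Int.natAbs_mul, hnm, mul_assoc] at h2
    have h3 := Nat.eq_of_mul_eq_mul_left hp.pos h2
    exact ⟨_, h3.symm⟩

include h in
open Classical in
lemma split_rel {p : ℕ} [Fact p.Prime] {r : ZMod p} (hr : r ^ 2 = r + 1) (hr2 : r ≠ 1 - r)
    (hchi : chi5 (p : ZMod 5) = 1) {d : ℤ × ℤ} (hd : (nm d).natAbs = p) (hd2 : ev p r d = 0)
    {n : ℕ} (hn : 0 < n) :
    a (p * n) + (if p ∣ n then a (n / p) else 0) = (psi d + psi (cj d)) * a n := by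
  have hp : p.Prime := Fact.out
  have hd0 : d ≠ 0 := by
    apply ne_of_nm
    intro h0
    rw [h0] at hd
    exact hp.ne_zero hd.symm
  have hcd : (nm (cj d)).natAbs = p := by rw [nm_cj]; exact hd
  have hcd0 : cj d ≠ 0 := by
    apply ne_of_nm
    rw [nm_cj]
    exact nm_ne hd0
  have hr' : (1 - r) ^ 2 = (1 - r) + 1 := by linear_combination hr
  have hr2' : (1 - r) ≠ 1 - (1 - r) := by
    intro h0
    apply hr2
    linear_combination -h0
  have hev' : ev p (1 - r) (cj d) = 0 := by rw [ev_cj, hd2]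
  have k1 := key h d hd0 n
  have k2 := key h (cj d) hcd0 n
  rw [hd] at k1
  rw [hcd] at k2
  have k3 := Tsum h hp hn
  have hsum : ∑ c ∈ DF h (p * n), psi c =
      ∑ c ∈ (DF h (p * n)).filter (fun c => Dv d c), psi c +
      ∑ c ∈ (DF h (p * n)).filter (fun c => Dv (cj d) c), psi c -
      ∑ c ∈ (DF h (p * n)).filter (fun c => Dv ((p : ℤ), 0) c), psi c := by
    rw [Finset.sum_filter, Finset.sum_filter, Finset.sum_filter, ← Finset.sum_add_distrib,
      ← Finset.sum_sub_distrib]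
    refine Finset.sum_congr rfl ?_
    intro c hc
    rw [mem_DF] at hc
    have hAB : ev p r c = 0 ∨ ev p (1 - r) c = 0 := by
      rw [← mul_eq_zero, ← nm_ev hr, cast_nm_zero, hc.2]
      exact ⟨n, rfl⟩
    have e1 := Dv_iff hr hr2 hd hd2 c
    have e2 := Dv_iff hr' hr2' hcd hev' c
    have e3 : Dv ((p : ℤ), 0) c ↔ (ev p r c = 0 ∧ ev p (1 - r) c = 0) := by
      constructor
      · intro h0
        rw [Dv_p hp.ne_zero] at h0
        unfold ev
        rw [h0.1, h0.2]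
        simp
      · rintro ⟨h1, h2⟩
        exact both hr2 h1 h2
    simp only [e1, e2, e3]
    by_cases hA : ev p r c = 0 <;> by_cases hB : ev p (1 - r) c = 0
    · simp [hA, hB]
    · simp [hA, hB]
    · simp [hA, hB]
    · exact absurd hAB (by tauto)
  rw [k1, k2, k3, hchi] at hsum
  rw [a_eq h (p * n), a_eq h n, a_eq h (n / p), hsum]
  split_ifs <;> push_cast <;> ring

end sums

theorem arith2 (h : Arith1) : Arith2 := by
  intro p n hp hp5 hn
  have : Fact p.Prime := ⟨hp⟩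
  have : Fact (Nat.Prime 5) := ⟨by norm_num⟩
  have hpz : (p : ZMod 5) ≠ 0 := by
    intro h0
    rw [ZMod.natCast_eq_zero_iff] at h0
    exact hp5 ((Nat.prime_dvd_prime_iff_eq (by norm_num) hp).1 h0).symm
  have h5p : ((5 : ℕ) : ZMod p) ≠ 0 := by
    intro h0
    rw [ZMod.natCast_eq_zero_iff] at h0
    exact hp5 ((Nat.prime_dvd_prime_iff_eq hp (by norm_num)).1 h0)
  by_cases hcase : p ≠ 2 ∧ IsSquare ((p : ℕ) : ZMod 5)
  · -- split
    obtain ⟨hp2, hsq⟩ := hcase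
    have hsq5 : IsSquare ((5 : ℕ) : ZMod p) :=
      (ZMod.exists_sq_eq_prime_iff_of_mod_four_eq_one (p := 5) (q := p) (by norm_num) hp2).1 hsq
    obtain ⟨s, hs⟩ := hsq5
    have h2 : (2 : ZMod p) ≠ 0 := by
      intro h0
      have : ((2 : ℕ) : ZMod p) = 0 := by exact_mod_cast h0
      rw [ZMod.natCast_eq_zero_iff] at this
      exact hp2 ((Nat.prime_dvd_prime_iff_eq hp (by norm_num)).1 this)
    have hs' : s * s = 5 := by
      rw [← hs]; norm_num
    set r : ZMod p := (1 + s) / 2 with hrdef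
    have h2r : 2 * r = 1 + s := by rw [hrdef]; field_simp
    have hr : r ^ 2 = r + 1 := by
      have h4 : (4 : ZMod p) ≠ 0 := by
        have : (4 : ZMod p) = 2 * 2 := by norm_num
        rw [this]; exact mul_ne_zero h2 h2
      apply mul_left_cancel₀ h4
      linear_combination (2 * r + s - 1) * h2r + hs'
    have hr2 : r ≠ 1 - r := by
      intro h0
      have hs0 : s = 0 := by linear_combination h0 - h2r
      rw [hs0] at hs
      apply h5p
      rw [hs]; ring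
    have hchi : chi5 (p : ZMod 5) = 1 := by
      obtain ⟨y, hy⟩ := hsq
      rw [hy]
      apply chi_sq
      rw [← hy]; exact hpz
    obtain ⟨d, hd, hd2⟩ := split_exists hr
    have h1 := split_rel h hr hr2 hchi hd hd2 hn
    have h2 := split_rel h hr hr2 hchi hd hd2 (n := 1) one_pos
    have h3 : ¬ p ∣ 1 := by
      rw [Nat.dvd_one]; exact hp.one_lt.ne'
    rw [if_neg h3, mul_one, h.one, mul_one, add_zero] at h2
    rw [h1, h2]
  · -- inert
    have hchi : chi5 (p : ZMod 5) = -1 := by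
      by_cases hp2 : p = 2
      · rw [hp2]; exact chi_two
      · apply chi_nsq _ hpz
        intro y hy
        exact hcase ⟨hp2, ⟨y, hy⟩⟩
    have hin : ∀ b : ℤ × ℤ, p ∣ (nm b).natAbs → Dv ((p : ℤ), 0) b := by
      intro b hb
      rw [← cast_nm_zero] at hb
      rw [Dv_p hp.ne_zero]
      by_cases hp2 : p = 2
      · subst hp2
        apply hall2
        unfold nm at hb
        push_cast at hb
        exact hb
      · have hns : ¬ IsSquare ((5 : ℕ) : ZMod p) := by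
          intro h0
          exact hcase ⟨hp2, (ZMod.exists_sq_eq_prime_iff_of_mod_four_eq_one (p := 5) (q := p)
            (by norm_num) hp2).2 h0⟩
        unfold nm at hb
        push_cast at hb
        have hb2 : (b.2 : ZMod p) = 0 := by
          by_contra hne
          apply hns
          refine ⟨(2 * (b.1 : ZMod p) + b.2) / b.2, ?_⟩
          field_simp
          push_cast
          linear_combination -4 * hb
        refine ⟨?_, hb2⟩
        rw [hb2] at hb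
        simpa using hb
    have ht : ∀ m : ℕ, 0 < m → a (p * m) + (if p ∣ m then a (m / p) else 0) = 0 := by
      intro m hm
      classical
      have k3 := Tsum h hp hm
      rw [Finset.filter_true_of_mem] at k3
      · rw [a_eq h (p * m), a_eq h (m / p), k3, hchi]
        split_ifs <;> push_cast <;> ring
      · intro c hc
        rw [mem_DF] at hc
        apply hin
        rw [hc.2]
        exact ⟨m, rfl⟩
    have h1 := ht 1 one_pos
    have h3 : ¬ p ∣ 1 := by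
      rw [Nat.dvd_one]; exact hp.one_lt.ne'
    rw [if_neg h3, mul_one, add_zero] at h1
    rw [ht n hn, h1, zero_mul]

end

end Pool.Agent.TH67.J691
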